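import Pool.Agent.Q125.AP.Key

/-!
The orders of the groups `Gp n (ℤ/2^(k+1))` and of their automorphism groups.
-/

set_option autoImplicit false

namespace Pool.Agent.Q125.AP

open scoped commutatorElement

/-- the action of the automorphisms on the abelianization -/
def abAct (G : Type) [Group G] : MulAut G →* MulAut (Abelianization G) where
  toFun α := α.abelianizationCongr
  map_one' := by
    ext x
    induction x using QuotientGroup.induction_on with
    | H x => rfl
  map_mul' α β := by
    ext x
    induction x using QuotientGroup.induction_on with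
    | H x => rfl

/-- the underlying type of the group -/
def equivProd (n : ℕ) (R : Type) : Gp n R ≃ (ZMod n → R) × (O n → R) × ℤˣ where
  toFun g := (g.m, g.z, g.s)
  invFun p := ⟨p.1, p.2.1, p.2.2⟩
  left_inv _ := rfl
  right_inv _ := rfl

variable {n k : ℕ}

theorem finite_Gp [NeZero n] : Finite (Gp n (Rk k)) := Finite.of_equiv _ (equivProd n (Rk k)).symm

theorem card_Gp [NeZero n] :
    Nat.card (Gp n (Rk k)) = 2 ^ ((k + 1) * (n + Nat.card (O n)) + 1) := by
  have : Fintype (O n) := Fintype.ofFinite _
  rw [Nat.card_congr (equivProd n (Rk k)), Nat.card_prod, Nat.card_prod, Nat.card_fun, Nat.card_fun,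
    Nat.card_zmod, Nat.card_zmod]
  have : Nat.card ℤˣ = 2 := by rw [Nat.card_eq_fintype_card]; rfl
  rw [this, ← pow_mul, ← pow_mul]
  ring

theorem index_commutator_le [NeZero n] : (commutator (Gp n (Rk k))).index ≤ 2 ^ n * 2 := by
  have := finite_Gp (n := n) (k := k)
  have hle : (par n (red k)).ker ≤ commutator (Gp n (Rk k)) := by
    intro g hg
    rw [MonoidHom.mem_ker] at hg
    have hs : g.s = 1 := congrArg Prod.snd hg
    have hm : ∀ i, ∃ c, g.m i = 2 * c := by
      intro i
      apply even_of_red
      exact congrFun (congrArg Multiplicative.toAdd (congrArg Prod.fst hg)) i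
    choose c hc using hm
    have : g = ⟨fun i => 2 * c i, g.z, 1⟩ := by
      ext x
      · exact hc x
      · rfl
      · rw [hs]
    rw [this]
    exact mem_commutator c g.z
  refine (Subgroup.index_antitone hle).trans ?_
  rw [Subgroup.index_ker]
  refine (Nat.card_le_card_of_injective (fun x => x.1) Subtype.val_injective).trans ?_
  rw [Nat.card_prod]
  have h1 : Nat.card (Multiplicative (ZMod n → ZMod 2)) = 2 ^ n := by
    show Nat.card (ZMod n → ZMod 2) = _
    rw [Nat.card_fun, Nat.card_zmod, Nat.card_zmod]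
  have h2 : Nat.card ℤˣ = 2 := by rw [Nat.card_eq_fintype_card]; rfl
  rw [h1, h2]

theorem card_ker_le (hn : 5 ≤ n) :
    Nat.card (abAct (Gp n (Rk k))).ker ≤
      (2 ^ (k + 1)) ^ n * ((2 ^ (k + 1)) ^ n * (2 ^ Nat.card (O n) * (2 ^ Nat.card (O n)) ^ n)) := by
  have : NeZero n := ⟨by omega⟩
  have : Fintype (O n) := Fintype.ofFinite _
  have hpar : ∀ α : (abAct (Gp n (Rk k))).ker, ∀ g, par n (red k) (α.1 g) = par n (red k) g := by
    intro α g
    have h1 : abAct (Gp n (Rk k)) α.1 = 1 := α.2
    have h2 : Abelianization.of (α.1 g) = Abelianization.of g := by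
      have := DFunLike.congr_fun h1 (Abelianization.of g)
      exact this
    have h3 := congrArg (Abelianization.lift (par n (red k))) h2
    simpa using h3
  let Ψ : (abAct (Gp n (Rk k))).ker →
      (ZMod n → Rk k) × (ZMod n → Rk k) × (O n → Bool) × (ZMod n → O n → Bool) := fun α =>
    (fun i => (α.1 t).m i, fun i => (α.1 (e i 1)).m i, fun p => bit ((α.1 t).z p),
      fun i p => bit ((α.1 (e i 1)).z p))
  have hΨ : Function.Injective Ψ := by
    intro α β h
    apply Subtype.ext
    refine key_inj hn α.1 β.1 (hpar α) (hpar β) ?_ ?_ ?_ ?_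
    · exact fun i => congrFun (congrArg Prod.fst h) i
    · exact fun i => congrFun (congrArg (fun x => x.2.1) h) i
    · exact fun p => congrFun (congrArg (fun x => x.2.2.1) h) p
    · exact fun i p => congrFun (congrFun (congrArg (fun x => x.2.2.2) h) i) p
  refine (Nat.card_le_card_of_injective Ψ hΨ).trans ?_
  rw [Nat.card_prod, Nat.card_prod, Nat.card_prod, Nat.card_fun, Nat.card_fun, Nat.card_fun,
    Nat.card_fun, Nat.card_zmod, Nat.card_zmod]
  have : Nat.card Bool = 2 := by simp
  rw [this]

/-- a constant depending only on `n` -/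
noncomputable def Cn (n : ℕ) : ℕ := (2 ^ n * 2) ^ (2 ^ n * 2) * (2 ^ Nat.card (O n) * (2 ^ Nat.card (O n)) ^ n)

theorem card_aut_le (hn : 5 ≤ n) :
    Nat.card (MulAut (Gp n (Rk k))) ≤ Cn n * 2 ^ ((k + 1) * (2 * n)) := by
  have : NeZero n := ⟨by omega⟩
  have := finite_Gp (n := n) (k := k)
  have hab : Nat.card (Abelianization (Gp n (Rk k))) ≤ 2 ^ n * 2 :=
    index_commutator_le (n := n) (k := k)
  have hpos : 0 < Nat.card (Abelianization (Gp n (Rk k))) := Nat.card_pos
  have h1 : (abAct (Gp n (Rk k))).ker.index ≤ (2 ^ n * 2) ^ (2 ^ n * 2) := by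
    rw [Subgroup.index_ker]
    refine (Nat.card_le_card_of_injective
      (fun x : (abAct (Gp n (Rk k))).range =>
        ((x.1 : MulAut (Abelianization (Gp n (Rk k)))) :
          Abelianization (Gp n (Rk k)) → Abelianization (Gp n (Rk k)))) ?_).trans ?_
    · intro x y h
      apply Subtype.ext
      exact DFunLike.coe_injective h
    · rw [Nat.card_fun]
      calc _ ≤ (2 ^ n * 2) ^ Nat.card (Abelianization (Gp n (Rk k))) := Nat.pow_le_pow_left hab _
        _ ≤ _ := Nat.pow_le_pow_right (by positivity) hab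
  rw [← Subgroup.card_mul_index (abAct (Gp n (Rk k))).ker]
  calc _ ≤ ((2 ^ (k + 1)) ^ n * ((2 ^ (k + 1)) ^ n *
        (2 ^ Nat.card (O n) * (2 ^ Nat.card (O n)) ^ n))) * (2 ^ n * 2) ^ (2 ^ n * 2) :=
        Nat.mul_le_mul (card_ker_le hn) h1
    _ = _ := by
        unfold Cn
        rw [← pow_mul 2 (k + 1) n]
        have : 2 ^ ((k + 1) * (2 * n)) = 2 ^ ((k + 1) * n) * 2 ^ ((k + 1) * n) := by
          rw [← pow_add]; congr 1; ring
        rw [this]
        ring

/-- many pairs -/
theorem card_O (q : ℕ) : q * q ≤ Nat.card (O (2 * q + 4)) := by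
  have hv : ∀ a : ℕ, a < 2 * q + 4 → ((a : ℕ) : ZMod (2 * q + 4)).val = a := by
    intro a ha
    rw [ZMod.val_natCast, Nat.mod_eq_of_lt ha]
  let F : Fin q × Fin q → O (2 * q + 4) := fun x =>
    ⟨(((x.1.val + 1 : ℕ) : ZMod (2 * q + 4)), ((x.2.val + q + 2 : ℕ) : ZMod (2 * q + 4))), by
      have h1 := x.1.2
      have h2 := x.2.2
      show ZMod.val ((x.1.val + 1 : ℕ) : ZMod (2 * q + 4)) <
        ZMod.val ((x.2.val + q + 2 : ℕ) : ZMod (2 * q + 4)) ∧ Nadj _ _
      rw [hv _ (by omega), hv _ (by omega)]
      refine ⟨by omega, ?_, ?_, ?_⟩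
      · intro h
        have := congrArg ZMod.val h
        rw [hv _ (by omega), hv _ (by omega)] at this
        omega
      · intro h
        have h3 : ((x.1.val + 1 : ℕ) : ZMod (2 * q + 4)) =
            ((x.2.val + q + 2 + 1 : ℕ) : ZMod (2 * q + 4)) := by
          push_cast; push_cast at h; exact h
        have := congrArg ZMod.val h3
        rw [hv _ (by omega), hv _ (by omega)] at this
        omega
      · intro h
        have h3 : ((x.2.val + q + 2 : ℕ) : ZMod (2 * q + 4)) =
            ((x.1.val + 1 + 1 : ℕ) : ZMod (2 * q + 4)) := by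
          push_cast; push_cast at h; exact h
        have := congrArg ZMod.val h3
        rw [hv _ (by omega), hv _ (by omega)] at this
        omega⟩
  have hF : Function.Injective F := by
    intro x y h
    have h0 := congrArg Subtype.val h
    have h1 := congrArg (fun z => ZMod.val z.1) h0
    have h2 := congrArg (fun z => ZMod.val z.2) h0
    have a1 := x.1.2
    have a2 := x.2.2
    have a3 := y.1.2
    have a4 := y.2.2
    simp only [F] at h1 h2
    rw [hv _ (by omega), hv _ (by omega)] at h1 h2
    apply Prod.ext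
    · apply Fin.ext; omega
    · apply Fin.ext; omega
  have := Nat.card_le_card_of_injective F hF
  simpa [Nat.card_prod] using this

end Pool.Agent.Q125.AP
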