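import Mathlib

/-!
Finite 2-groups with few automorphisms (problem MP_a94181_al): the groups `Gp n R`.

`n` is the length of a cycle, `R` a commutative ring (later `ℤ/2^(k+1)`).  `Gp n R` is the semidirect
product of the class two group `R^n × R^(O n)` with the group of order two generated by the
automorphism `(m, z) ↦ (-m, z)`.
-/

set_option autoImplicit false

namespace Pool.Agent.Q125.AP

open scoped commutatorElement

/-- `a`, `b` are different and not neighbours in the cycle `ℤ/n` -/
def Nadj {n : ℕ} (a b : ZMod n) : Prop := a ≠ b ∧ a ≠ b + 1 ∧ b ≠ a + 1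

theorem Nadj.symm {n : ℕ} {a b : ZMod n} (h : Nadj a b) : Nadj b a := ⟨h.1.symm, h.2.2, h.2.1⟩

/-- the pairs of different, non-neighbouring elements of the cycle, each pair once -/
abbrev O (n : ℕ) : Type := {p : ZMod n × ZMod n // p.1.val < p.2.val ∧ Nadj p.1 p.2}

/-- the group: triples `(m, z, s)`, `m ∈ R^n`, `z ∈ R^(O n)`, `s = ±1` -/
@[ext] structure Gp (n : ℕ) (R : Type) where
  /-- the component in `R^n` -/
  m : ZMod n → R
  /-- the central component -/
  z : O n → R
  /-- the component in the group of order two -/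
  s : ℤˣ

variable {n : ℕ} {R : Type} [CommRing R]

/-- `±1` as an element of the ring -/
def sg (R : Type) [CommRing R] (s : ℤˣ) : R := ((s : ℤ) : R)

@[simp] theorem sg_one : sg R 1 = 1 := by simp [sg]

@[simp] theorem sg_neg_one : sg R (-1) = -1 := by simp [sg]

theorem sg_mul (s t : ℤˣ) : sg R (s * t) = sg R s * sg R t := by simp [sg]

theorem sg_sq (s : ℤˣ) : sg R s * sg R s = 1 := by
  rw [← sg_mul, Int.units_mul_self, sg_one]

instance : Mul (Gp n R) := ⟨fun g h => ⟨fun i => g.m i + sg R g.s * h.m i,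
  fun p => g.z p + h.z p + g.m p.1.1 * (sg R g.s * h.m p.1.2), g.s * h.s⟩⟩

instance : One (Gp n R) := ⟨⟨0, 0, 1⟩⟩

instance : Inv (Gp n R) := ⟨fun g => ⟨fun i => - (sg R g.s * g.m i),
  fun p => - g.z p + g.m p.1.1 * g.m p.1.2, g.s⟩⟩

@[simp] theorem mul_m (g h : Gp n R) (i : ZMod n) : (g * h).m i = g.m i + sg R g.s * h.m i := rfl
@[simp] theorem mul_z (g h : Gp n R) (p : O n) :
    (g * h).z p = g.z p + h.z p + g.m p.1.1 * (sg R g.s * h.m p.1.2) := rfl
@[simp] theorem mul_s (g h : Gp n R) : (g * h).s = g.s * h.s := rfl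
@[simp] theorem one_m (i : ZMod n) : (1 : Gp n R).m i = 0 := rfl
@[simp] theorem one_z (p : O n) : (1 : Gp n R).z p = 0 := rfl
@[simp] theorem one_s : (1 : Gp n R).s = 1 := rfl
@[simp] theorem inv_m (g : Gp n R) (i : ZMod n) : (g⁻¹).m i = - (sg R g.s * g.m i) := rfl
@[simp] theorem inv_z (g : Gp n R) (p : O n) : (g⁻¹).z p = - g.z p + g.m p.1.1 * g.m p.1.2 := rfl
@[simp] theorem inv_s (g : Gp n R) : (g⁻¹).s = g.s := rfl

instance : Group (Gp n R) := Group.ofLeftAxioms
  (by
    intro a b c
    have h := sg_sq (R := R) a.s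
    ext x
    · simp only [mul_m, mul_s, sg_mul]; ring
    · simp only [mul_m, mul_z, mul_s, sg_mul]
      linear_combination (b.m x.1.1 * sg R b.s * c.m x.1.2) * h
    · simp only [mul_s, mul_assoc])
  (by
    intro a
    ext x <;> simp)
  (by
    intro a
    have h := sg_sq (R := R) a.s
    ext x
    · simp only [mul_m, inv_m, inv_s, one_m]; ring
    · simp only [mul_z, inv_m, inv_z, inv_s, one_z]
      linear_combination (- a.m x.1.1 * a.m x.1.2) * h
    · simp only [mul_s, inv_s, one_s]
      rw [Int.units_mul_self])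

/-- the involution -/
def t : Gp n R := ⟨0, 0, -1⟩

/-- `c` times the `i`-th basis vector -/
def e (i : ZMod n) (c : R) : Gp n R := ⟨Pi.single i c, 0, 1⟩

/-- the central elements -/
def zc (z : O n → R) : Gp n R := ⟨0, z, 1⟩

@[simp] theorem t_m (i : ZMod n) : (t : Gp n R).m i = 0 := rfl
@[simp] theorem t_z (p : O n) : (t : Gp n R).z p = 0 := rfl
@[simp] theorem t_s : (t : Gp n R).s = -1 := rfl
@[simp] theorem e_m (i : ZMod n) (c : R) (j : ZMod n) : (e i c).m j = Pi.single (M := fun _ => R) i c j := rfl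
@[simp] theorem e_z (i : ZMod n) (c : R) (p : O n) : (e i c).z p = 0 := rfl
@[simp] theorem e_s (i : ZMod n) (c : R) : (e i c).s = 1 := rfl
@[simp] theorem zc_m (z : O n → R) (j : ZMod n) : (zc z).m j = 0 := rfl
@[simp] theorem zc_z (z : O n → R) (p : O n) : (zc z).z p = z p := rfl
@[simp] theorem zc_s (z : O n → R) : (zc z).s = 1 := rfl

theorem single_mul_single (i : ZMod n) (c d : R) (p : O n) :
    Pi.single (M := fun _ => R) i c p.1.1 * Pi.single (M := fun _ => R) i d p.1.2 = 0 := by
  by_cases h : p.1.1 = i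
  · have h2 : p.1.2 ≠ i := by
      intro h3
      exact p.2.2.1 (h.trans h3.symm)
    rw [Pi.single_eq_of_ne h2, mul_zero]
  · rw [Pi.single_eq_of_ne h, zero_mul]

theorem e_pow (i : ZMod n) (c : ℕ) : (e i (1 : R)) ^ c = e i (c : R) := by
  induction c with
  | zero =>
    ext x
    · simp
    · simp
    · simp
  | succ c ih =>
    rw [pow_succ, ih]
    ext x
    · simp only [mul_m, e_m, e_s, sg_one, one_mul, Nat.cast_add, Nat.cast_one]
      rw [Pi.single_add, Pi.add_apply]
    · simp only [mul_z, e_m, e_z, e_s, sg_one, one_mul]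
      rw [single_mul_single]
      simp
    · simp

theorem t_mul_t : (t : Gp n R) * t = 1 := by
  ext x <;> simp

theorem te_sq (i : ZMod n) (c : R) : ((t : Gp n R) * e i c) * (t * e i c) = 1 := by
  ext x
  · simp
  · simp only [mul_z, mul_m, mul_s, t_z, t_m, t_s, e_z, e_m, e_s, sg_neg_one, mul_one, one_z]
    have := single_mul_single (R := R) i c c x
    linear_combination (-1 : R) * this
  · simp

/-- the commutator of `e i c` and `t` -/
theorem comm_et (i : ZMod n) (c : R) : ⁅(e i c : Gp n R), t⁆ = e i (2 * c) := by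
  rw [commutatorElement_def]
  ext x
  · simp only [mul_m, mul_s, inv_m, inv_s, t_m, t_s, e_m, e_s, sg_one, sg_neg_one]
    by_cases h : x = i
    · subst h; simp; ring
    · simp [Pi.single_eq_of_ne h]
  · simp only [mul_m, mul_z, mul_s, inv_m, inv_s, inv_z, t_m, t_z, t_s, e_m, e_z, e_s, sg_one, sg_neg_one,
      one_mul, mul_one]
    have := single_mul_single (R := R) i c c x
    linear_combination 2 * this
  · simp

/-- two basis vectors: the commutator -/
theorem e_comm (p : O n) (c : R) :
    ⁅(e p.1.1 c : Gp n R), e p.1.2 1⁆ = zc (Pi.single p c) := by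
  classical
  rw [commutatorElement_def]
  have hne : p.1.1 ≠ p.1.2 := p.2.2.1
  ext x
  · simp
  · simp only [mul_m, mul_z, mul_s, inv_m, inv_s, inv_z, e_m, e_z, e_s, zc_z, sg_one, one_mul, mul_one]
    have h1 := single_mul_single (R := R) p.1.1 c c x
    have h2 := single_mul_single (R := R) p.1.2 1 1 x
    -- the mixed terms
    have h3 : Pi.single (M := fun _ => R) p.1.1 c x.1.1 * Pi.single (M := fun _ => R) p.1.2 1 x.1.2
        = Pi.single (M := fun _ => R) p c x := by
      by_cases hx : x = p
      · subst hx; simp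
      · rw [Pi.single_eq_of_ne hx]
        by_cases h : x.1.1 = p.1.1
        · have : x.1.2 ≠ p.1.2 := by
            intro h'
            exact hx (Subtype.ext (Prod.ext h h'))
          rw [Pi.single_eq_of_ne this, mul_zero]
        · rw [Pi.single_eq_of_ne h, zero_mul]
    have h4 : Pi.single (M := fun _ => R) p.1.2 1 x.1.1 * Pi.single (M := fun _ => R) p.1.1 c x.1.2
        = 0 := by
      by_cases h : x.1.1 = p.1.2
      · have : x.1.2 ≠ p.1.1 := by
          intro h'
          have h5 := x.2.1
          have h6 := p.2.1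
          rw [h, h'] at h5
          exact absurd h5 (Nat.lt_asymm h6)
        rw [Pi.single_eq_of_ne this, mul_zero]
      · rw [Pi.single_eq_of_ne h, zero_mul]
    linear_combination h3 - h4
  · simp

end Pool.Agent.Q125.AP
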