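import Pool.Agent.Q125.AP.Defs

/-!
The matrices near the identity which respect the commutation relations of the cycle are diagonal.
-/

set_option autoImplicit false

namespace Pool.Agent.Q125.AP

variable {n : ℕ} {R : Type} [CommRing R]

theorem natCast_ne_zero {n a : ℕ} (h0 : 0 < a) (h : a < n) : (a : ZMod n) ≠ 0 := by
  intro h1
  rw [ZMod.natCast_eq_zero_iff] at h1
  exact absurd (Nat.le_of_dvd h0 h1) (by omega)

theorem diag (hn : 5 ≤ n) (x : ZMod n → ZMod n → R) (hu : ∀ i, IsUnit (x i i))
    (hu2 : ∀ i, IsUnit (x i i * x (i + 1) (i + 1) - x i (i + 1) * x (i + 1) i))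
    (hc : ∀ i a b, Nadj a b → x i a * x (i + 1) b = x i b * x (i + 1) a) (i j : ZMod n)
    (hij : j ≠ i) : x i j = 0 := by
  have h1 : (1 : ZMod n) ≠ 0 := by simpa using natCast_ne_zero (n := n) (a := 1) (by omega) (by omega)
  have h2 : (2 : ZMod n) ≠ 0 := by simpa using natCast_ne_zero (n := n) (a := 2) (by omega) (by omega)
  have h3 : (3 : ZMod n) ≠ 0 := by simpa using natCast_ne_zero (n := n) (a := 3) (by omega) (by omega)
  have h4 : (4 : ZMod n) ≠ 0 := by simpa using natCast_ne_zero (n := n) (a := 4) (by omega) (by omega)
  have A : ∀ i b, Nadj i b → Nadj (i + 1) b → x i b = 0 ∧ x (i + 1) b = 0 := by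
    intro i b hb1 hb2
    have E1 := hc i i b hb1
    have E2 := hc i (i + 1) b hb2
    have h5 : x (i + 1) b = 0 := by
      have h6 : (x i i * x (i + 1) (i + 1) - x i (i + 1) * x (i + 1) i) * x (i + 1) b = 0 := by
        linear_combination (x (i + 1) (i + 1)) * E1 - (x (i + 1) i) * E2
      exact (hu2 i).mul_right_eq_zero.mp h6
    refine ⟨?_, h5⟩
    have h7 : x (i + 1) (i + 1) * x i b = 0 := by
      rw [h5] at E2
      linear_combination - E2
    exact (hu (i + 1)).mul_right_eq_zero.mp h7
  have B : ∀ j b, b ≠ j → b ≠ j + 1 → b ≠ j - 1 → x j b = 0 := by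
    intro j b hb hb1 hb2
    by_cases hb3 : b = j + 2
    · have h5 : Nadj (j - 1) b := by
        subst hb3
        refine ⟨?_, ?_, ?_⟩
        · intro h; exact h3 (by linear_combination - h)
        · intro h; exact h4 (by linear_combination - h)
        · intro h; exact h2 (by linear_combination h)
      have h6 : Nadj (j - 1 + 1) b := by
        subst hb3
        refine ⟨?_, ?_, ?_⟩
        · intro h; exact h2 (by linear_combination - h)
        · intro h; exact h3 (by linear_combination - h)
        · intro h; exact h1 (by linear_combination h)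
      have := (A (j - 1) b h5 h6).2
      rwa [sub_add_cancel] at this
    · have h5 : Nadj j b := by
        refine ⟨hb.symm, ?_, hb1⟩
        intro h; exact hb2 (by linear_combination - h)
      have h6 : Nadj (j + 1) b := by
        refine ⟨hb1.symm, ?_, ?_⟩
        · intro h; exact hb (by linear_combination - h)
        · intro h; exact hb3 (by linear_combination h)
      exact (A j b h5 h6).1
  by_cases hj1 : j = i + 1
  · -- step C
    have h5 : Nadj (i - 1) (i + 1) := by
      refine ⟨?_, ?_, ?_⟩
      · intro h; exact h2 (by linear_combination - h)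
      · intro h; exact h3 (by linear_combination - h)
      · intro h; exact h1 (by linear_combination h)
    have E := hc (i - 1) (i - 1) (i + 1) h5
    have h6 : x (i - 1) (i + 1) = 0 := by
      apply B
      · intro h; exact h2 (by linear_combination h)
      · intro h; exact h1 (by linear_combination h)
      · intro h; exact h3 (by linear_combination h)
    rw [h6, zero_mul, sub_add_cancel] at E
    rw [hj1]
    exact (hu (i - 1)).mul_right_eq_zero.mp E
  · by_cases hj2 : j = i - 1
    · have h5 : Nadj (i + 1) (i - 1) := by
        refine ⟨?_, ?_, ?_⟩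
        · intro h; exact h2 (by linear_combination h)
        · intro h; exact h1 (by linear_combination h)
        · intro h; exact h3 (by linear_combination - h)
      have E := hc i (i + 1) (i - 1) h5
      have h6 : x (i + 1) (i - 1) = 0 := by
        apply B
        · intro h; exact h2 (by linear_combination - h)
        · intro h; exact h3 (by linear_combination - h)
        · intro h; exact h1 (by linear_combination - h)
      rw [h6, mul_zero] at E
      rw [hj2]
      have E' : x (i + 1) (i + 1) * x i (i - 1) = 0 := by linear_combination - E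
      exact (hu (i + 1)).mul_right_eq_zero.mp E'
    · exact B i j hij hj1 hj2

end Pool.Agent.Q125.AP
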