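import Pool.Agent.Q125.AP.Defs

/-!
Generation of the groups `Gp n R`, their commutator subgroups and the parity map.
-/

set_option autoImplicit false

namespace Pool.Agent.Q125.AP

open scoped commutatorElement

variable {n : ℕ} {R : Type} [CommRing R]

theorem zc_mul (z w : O n → R) : zc z * zc w = zc (z + w) := by
  ext x <;> simp

theorem zc_zero : (zc 0 : Gp n R) = 1 := by
  ext x <;> simp

theorem zc_inv (z : O n → R) : (zc z)⁻¹ = zc (-z) := by
  ext x <;> simp

theorem gen [NeZero n] (H : Subgroup (Gp n R)) (r : R)
    (h1 : ∀ (p : O n) (c : R), zc (Pi.single p c) ∈ H)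
    (h2 : ∀ (i : ZMod n) (c : R), e i (r * c) ∈ H) (c : ZMod n → R) (z : O n → R) :
    (⟨fun i => r * c i, z, 1⟩ : Gp n R) ∈ H := by
  classical
  have : Fintype (O n) := Fintype.ofFinite _
  have hz : ∀ z : O n → R, zc z ∈ H := by
    intro z
    let K : AddSubgroup (O n → R) :=
      { carrier := {z | zc z ∈ H}
        zero_mem' := by
          show zc 0 ∈ H
          rw [zc_zero]; exact H.one_mem
        add_mem' := by
          intro a b ha hb
          show zc (a + b) ∈ H
          rw [← zc_mul]; exact H.mul_mem ha hb
        neg_mem' := by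
          intro a ha
          show zc (-a) ∈ H
          rw [← zc_inv]; exact H.inv_mem ha }
    have : z ∈ K := by
      rw [← Finset.univ_sum_single z]
      exact K.sum_mem fun p _ => h1 p (z p)
    exact this
  let K : AddSubgroup (ZMod n → R) :=
    { carrier := {m | ∀ z, (⟨m, z, 1⟩ : Gp n R) ∈ H}
      zero_mem' := by
        intro z
        exact hz z
      add_mem' := by
        intro a b ha hb z
        have h := H.mul_mem (ha (fun p => z p - a p.1.1 * b p.1.2)) (hb 0)
        have he : (⟨a, fun p => z p - a p.1.1 * b p.1.2, 1⟩ : Gp n R) * ⟨b, 0, 1⟩ = ⟨a + b, z, 1⟩ := by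
          ext x
          · simp
          · simp
          · simp
        rwa [he] at h
      neg_mem' := by
        intro a ha z
        have h := H.inv_mem (ha (fun p => - z p + a p.1.1 * a p.1.2))
        have he : (⟨a, fun p => - z p + a p.1.1 * a p.1.2, 1⟩ : Gp n R)⁻¹ = ⟨-a, z, 1⟩ := by
          ext x
          · simp
          · simp
          · simp
        rwa [he] at h }
  have hs : ∀ i : ZMod n, Pi.single i (r * c i) ∈ K := by
    intro i z
    have h := H.mul_mem (hz z) (h2 i (c i))
    have he : zc z * e i (r * c i) = (⟨Pi.single i (r * c i), z, 1⟩ : Gp n R) := by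
      ext x <;> simp
    rwa [he] at h
  have : (fun i => r * c i) ∈ K := by
    rw [← Finset.univ_sum_single (fun i => r * c i)]
    exact K.sum_mem fun i _ => hs i
  exact this z

/-- the whole group is generated by `t` and the `e i 1`, if `R` is `ℤ/N` -/
theorem gen_all [NeZero n] {N : ℕ} [NeZero N] (H : Subgroup (Gp n (ZMod N))) (ht : t ∈ H)
    (he : ∀ i, e i 1 ∈ H) (g : Gp n (ZMod N)) : g ∈ H := by
  have he' : ∀ (i : ZMod n) (c : ZMod N), e i c ∈ H := by
    intro i c
    have := H.pow_mem (he i) c.val
    rwa [e_pow, ZMod.natCast_zmod_val] at this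
  have h1 : ∀ (p : O n) (c : ZMod N), zc (Pi.single p c) ∈ H := by
    intro p c
    rw [← e_comm, commutatorElement_def]
    exact H.mul_mem (H.mul_mem (H.mul_mem (he' _ _) (he' _ _)) (H.inv_mem (he' _ _)))
      (H.inv_mem (he' _ _))
  have h3 := gen H 1 h1 (fun i c => by rw [one_mul]; exact he' i c) g.m g.z
  simp only [one_mul] at h3
  rcases Int.units_eq_one_or g.s with hs | hs
  · have : (⟨g.m, g.z, 1⟩ : Gp n (ZMod N)) = g := by
      ext x
      · rfl
      · rfl
      · rw [hs]
    rw [← this]; exact h3
  · have h4 := H.mul_mem h3 ht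
    have : (⟨g.m, g.z, 1⟩ : Gp n (ZMod N)) * t = g := by
      ext x
      · simp
      · simp
      · simp [hs]
    rwa [this] at h4

/-- the elements of `R^n` divisible by two, times the centre, are in the commutator subgroup -/
theorem mem_commutator [NeZero n] (c : ZMod n → R) (z : O n → R) :
    (⟨fun i => 2 * c i, z, 1⟩ : Gp n R) ∈ commutator (Gp n R) := by
  apply gen (commutator (Gp n R)) 2
  · intro p c
    rw [← e_comm]
    exact Subgroup.commutator_mem_commutator (Subgroup.mem_top _) (Subgroup.mem_top _)
  · intro i c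
    rw [← comm_et]
    exact Subgroup.commutator_mem_commutator (Subgroup.mem_top _) (Subgroup.mem_top _)

/-- reduction modulo two -/
def par (n : ℕ) (f : R →+* ZMod 2) : Gp n R →* Multiplicative (ZMod n → ZMod 2) × ℤˣ where
  toFun g := (Multiplicative.ofAdd (fun i => f (g.m i)), g.s)
  map_one' := by
    ext x
    · simp
    · simp
  map_mul' g h := by
    have hs : ∀ s : ℤˣ, f (sg R s) = 1 := by
      intro s
      rcases Int.units_eq_one_or s with hs | hs
      · subst hs; simp
      · subst hs; simp only [sg_neg_one, map_neg, map_one]; decide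
    refine Prod.ext ?_ rfl
    show Multiplicative.ofAdd _ = Multiplicative.ofAdd _ * Multiplicative.ofAdd _
    rw [← ofAdd_add]
    congr 1
    funext i
    simp [hs]

end Pool.Agent.Q125.AP
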