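import Pool.Agent.Q125.AP.Gen
import Pool.Agent.Q125.AP.Diag

/-!
The automorphisms of `Gp n (ℤ/2^(k+1))` which act trivially modulo two.
-/

set_option autoImplicit false

namespace Pool.Agent.Q125.AP

open scoped commutatorElement

/-- the ring `ℤ/2^(k+1)` -/
abbrev Rk (k : ℕ) : Type := ZMod (2 ^ (k + 1))

/-- reduction `ℤ/2^(k+1) → ℤ/2` -/
def red (k : ℕ) : Rk k →+* ZMod 2 := ZMod.castHom (dvd_pow_self 2 (Nat.succ_ne_zero k)) (ZMod 2)

theorem red_natCast (k a : ℕ) : red k (a : Rk k) = (a : ZMod 2) := map_natCast _ _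

theorem isUnit_of_red {k : ℕ} {u : Rk k} (h : red k u = 1) : IsUnit u := by
  rw [← ZMod.natCast_zmod_val u] at h ⊢
  rw [red_natCast] at h
  rw [ZMod.isUnit_iff_coprime]
  apply Nat.Coprime.pow_right
  rw [Nat.coprime_two_right, Nat.odd_iff]
  have := (ZMod.natCast_eq_natCast_iff' u.val 1 2).1 (by simpa using h)
  simpa using this

theorem even_of_red {k : ℕ} {u : Rk k} (h : red k u = 0) : ∃ d, u = 2 * d := by
  rw [← ZMod.natCast_zmod_val u] at h
  rw [red_natCast, ZMod.natCast_eq_zero_iff] at h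
  obtain ⟨d, hd⟩ := h
  refine ⟨(d : Rk k), ?_⟩
  rw [← ZMod.natCast_zmod_val u, hd]
  push_cast
  ring

/-- the highest bit -/
def bit {k : ℕ} (r : Rk k) : Bool := decide (r.val < 2 ^ k)

theorem eq_of_two_mul {k : ℕ} {r s : Rk k} (h : 2 * r = 2 * s) (hb : bit r = bit s) : r = s := by
  have h1 : ((2 * r.val : ℕ) : Rk k) = ((2 * s.val : ℕ) : Rk k) := by
    push_cast
    rw [ZMod.natCast_zmod_val, ZMod.natCast_zmod_val]
    exact h
  rw [ZMod.natCast_eq_natCast_iff'] at h1
  have hr := ZMod.val_lt r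
  have hs := ZMod.val_lt s
  have hp : 2 ^ (k + 1) = 2 * 2 ^ k := by ring
  have hb' : (r.val < 2 ^ k) ↔ (s.val < 2 ^ k) := by
    simpa [bit] using hb
  apply ZMod.val_injective
  clear hb h
  generalize ZMod.val r = a at *
  generalize ZMod.val s = b at *
  rw [hp] at hr hs h1
  generalize 2 ^ k = q at *
  rw [Nat.mul_mod_mul_left, Nat.mul_mod_mul_left] at h1
  by_cases hlt : a < q
  · have hlt' := hb'.1 hlt
    rw [Nat.mod_eq_of_lt hlt, Nat.mod_eq_of_lt hlt'] at h1
    omega
  · have hlt' : ¬ b < q := fun h => hlt (hb'.2 h)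
    have e1 : a % q = a - q := by
      rw [Nat.mod_eq_sub_mod (by omega), Nat.mod_eq_of_lt (by omega)]
    have e2 : b % q = b - q := by
      rw [Nat.mod_eq_sub_mod (by omega), Nat.mod_eq_of_lt (by omega)]
    rw [e1, e2] at h1
    omega

variable {n k : ℕ}

theorem e_commute (hn : 5 ≤ n) (i : ZMod n) :
    (e i 1 : Gp n (Rk k)) * e (i + 1) 1 = e (i + 1) 1 * e i 1 := by
  have h1 : (1 : ZMod n) ≠ 0 := by simpa using natCast_ne_zero (n := n) (a := 1) (by omega) (by omega)
  ext x
  · simp [add_comm]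
  · simp only [mul_z, e_m, e_z, e_s, sg_one, one_mul]
    have A : Pi.single (M := fun _ => Rk k) i 1 x.1.1 * Pi.single (M := fun _ => Rk k) (i + 1) 1 x.1.2
        = 0 := by
      by_cases h : x.1.1 = i
      · have : x.1.2 ≠ i + 1 := by
          rw [← h]; exact x.2.2.2.2
        rw [Pi.single_eq_of_ne this, mul_zero]
      · rw [Pi.single_eq_of_ne h, zero_mul]
    have B : Pi.single (M := fun _ => Rk k) (i + 1) 1 x.1.1 * Pi.single (M := fun _ => Rk k) i 1 x.1.2
        = 0 := by
      by_cases h : x.1.2 = i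
      · have : x.1.1 ≠ i + 1 := by
          rw [← h]; exact x.2.2.2.1
        rw [Pi.single_eq_of_ne this, zero_mul]
      · rw [Pi.single_eq_of_ne h, mul_zero]
    rw [A, B]
  · simp

section

variable (α : MulAut (Gp n (Rk k))) (hα : ∀ g, par n (red k) (α g) = par n (red k) g)

include hα

theorem key_ts : (α t).s = -1 := by
  have := congrArg Prod.snd (hα t)
  exact this

theorem key_es (i : ZMod n) : (α (e i 1)).s = 1 := by
  have := congrArg Prod.snd (hα (e i 1))
  exact this

theorem key_em (i j : ZMod n) :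
    red k ((α (e i 1)).m j) = Pi.single (M := fun _ => ZMod 2) i 1 j := by
  have := congrFun (congrArg Multiplicative.toAdd (congrArg Prod.fst (hα (e i 1)))) j
  have h2 : red k ((α (e i 1)).m j) = red k ((e i 1 : Gp n (Rk k)).m j) := this
  rw [h2, e_m]
  by_cases h : j = i
  · subst h; simp
  · simp [Pi.single_eq_of_ne h]

theorem key_tz (p : O n) : 2 * (α t).z p = (α t).m p.1.1 * (α t).m p.1.2 := by
  have h1 : α t * α t = 1 := by rw [← map_mul, t_mul_t, map_one]
  have h2 := congrArg (fun g : Gp n (Rk k) => g.z p) h1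
  simp only [mul_z, one_z, key_ts α hα, sg_neg_one] at h2
  linear_combination h2

theorem key_diag (hn : 5 ≤ n) (i j : ZMod n) (hij : j ≠ i) : (α (e i 1)).m j = 0 := by
  have h1 : (1 : ZMod n) ≠ 0 := by simpa using natCast_ne_zero (n := n) (a := 1) (by omega) (by omega)
  refine diag hn (fun i j => (α (e i 1)).m j) ?_ ?_ ?_ i j hij
  · intro i
    apply isUnit_of_red
    rw [key_em α hα]; simp
  · intro i
    apply isUnit_of_red
    simp only [map_sub, map_mul, key_em α hα]
    have h2 : i + 1 ≠ i := by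
      intro h; exact h1 (by linear_combination h)
    rw [Pi.single_eq_same, Pi.single_eq_same, Pi.single_eq_of_ne h2]
    simp
  · intro i a b hab
    have h3 : α (e i 1) * α (e (i + 1) 1) = α (e (i + 1) 1) * α (e i 1) := by
      rw [← map_mul, e_commute hn, map_mul]
    have hv : a.val ≠ b.val := fun h => by
      have : NeZero n := ⟨by omega⟩
      exact hab.1 (ZMod.val_injective n h)
    rcases lt_or_gt_of_ne hv with h | h
    · have h4 := congrArg (fun g : Gp n (Rk k) => g.z ⟨(a, b), h, hab⟩) h3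
      simp only [mul_z, key_es α hα, sg_one] at h4
      linear_combination h4
    · have h4 := congrArg (fun g : Gp n (Rk k) => g.z ⟨(b, a), h, hab.symm⟩) h3
      simp only [mul_z, key_es α hα, sg_one] at h4
      linear_combination - h4

theorem key_ez (i : ZMod n) (p : O n) : 2 * (α (e i 1)).z p =
    - 2 * (α t).z p + 2 * ((α t).m p.1.1 * (α (e i 1)).m p.1.2) +
      ((α t).m p.1.1 - (α (e i 1)).m p.1.1) * ((α t).m p.1.2 - (α (e i 1)).m p.1.2) := by
  have h1 : (α t * α (e i 1)) * (α t * α (e i 1)) = 1 := by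
    rw [← map_mul, ← map_mul, te_sq, map_one]
  have h2 := congrArg (fun g : Gp n (Rk k) => g.z p) h1
  simp only [mul_z, mul_m, mul_s, one_z, key_ts α hα, key_es α hα, sg_neg_one, mul_one] at h2
  linear_combination h2

end

/-- an automorphism acting trivially modulo two is determined by a small amount of data -/
theorem key_inj (hn : 5 ≤ n) (α β : MulAut (Gp n (Rk k)))
    (hα : ∀ g, par n (red k) (α g) = par n (red k) g)
    (hβ : ∀ g, par n (red k) (β g) = par n (red k) g)
    (h1 : ∀ i, (α t).m i = (β t).m i) (h2 : ∀ i, (α (e i 1)).m i = (β (e i 1)).m i)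
    (h3 : ∀ p, bit ((α t).z p) = bit ((β t).z p))
    (h4 : ∀ i p, bit ((α (e i 1)).z p) = bit ((β (e i 1)).z p)) : α = β := by
  have : NeZero n := ⟨by omega⟩
  have ht : α t = β t := by
    ext x
    · exact h1 x
    · apply eq_of_two_mul _ (h3 x)
      rw [key_tz α hα, key_tz β hβ, h1, h1]
    · rw [key_ts α hα, key_ts β hβ]
  have hem : ∀ i j, (α (e i 1)).m j = (β (e i 1)).m j := by
    intro i j
    by_cases h : j = i
    · subst h; exact h2 j
    · rw [key_diag α hα hn i j h, key_diag β hβ hn i j h]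
  have he : ∀ i, α (e i 1) = β (e i 1) := by
    intro i
    ext x
    · exact hem i x
    · apply eq_of_two_mul _ (h4 i x)
      rw [key_ez α hα, key_ez β hβ, ht, hem, hem]
    · rw [key_es α hα, key_es β hβ]
  ext1 g
  exact gen_all (MonoidHom.eqLocus α.toMonoidHom β.toMonoidHom) ht he g

end Pool.Agent.Q125.AP
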